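import Mathlib
import Pool.Agent.P.MP_429aeb_pr.ExMain

set_option autoImplicit false

open MeasureTheory ProbabilityTheory
open scoped NNReal

namespace Pool.Agent.Results.MP_429aeb_pr.ExactExponents

/-- The exact set of exponents of the gap and of the noise level in the tail bound. -/
theorem result (k₂ k₃ : ℝ) (h : 0 < k₂) :
    (∃ c k₁ : ℝ, 0 < c ∧ 0 < k₁ ∧
      ∀ m n : ℕ, m ≤ n → ∀ Abar : Matrix (Fin m) (Fin n) ℝ,
        (∑ i, ∑ j, Abar i j ^ 2) ≤ 1 →
        ∀ σ : ℝ≥0, 0 < σ → σ ≤ 1 → ∀ x : ℝ, 1 < x →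
          (Measure.pi (fun _ : Fin m => Measure.pi (fun _ : Fin n => gaussianReal 0 (σ ^ 2))))
            {G : Fin m → Fin n → ℝ | ∃ j k : Fin m, j ≠ k ∧
              Real.sqrt ((Matrix.isHermitian_mul_conjTranspose_self (Abar + Matrix.of G)).eigenvalues k)
                ≤ Real.sqrt ((Matrix.isHermitian_mul_conjTranspose_self (Abar + Matrix.of G)).eigenvalues j) ∧
              Real.sqrt ((Matrix.isHermitian_mul_conjTranspose_self (Abar + Matrix.of G)).eigenvalues j)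
                - Real.sqrt ((Matrix.isHermitian_mul_conjTranspose_self (Abar + Matrix.of G)).eigenvalues k)
                ≤ Real.sqrt ((Matrix.isHermitian_mul_conjTranspose_self (Abar + Matrix.of G)).eigenvalues k) / x}
            ≤ ENNReal.ofReal (c * (n : ℝ) ^ k₁ * x ^ (-k₂) * (σ : ℝ) ^ (-k₃))) ↔
    k₂ ≤ 2 ∧ k₂ ≤ k₃ :=
  Pool.Agent.P.MP_429aeb_pr.Ex.exact_exponents h

/-- The posed question. -/
theorem posed :
    ∃ c k₁ k₂ k₃ : ℝ, 0 < c ∧ 0 < k₁ ∧ 0 < k₂ ∧ 0 < k₃ ∧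
      ∀ m n : ℕ, m ≤ n → ∀ Abar : Matrix (Fin m) (Fin n) ℝ,
        (∑ i, ∑ j, Abar i j ^ 2) ≤ 1 →
        ∀ σ : ℝ≥0, 0 < σ → σ ≤ 1 → ∀ x : ℝ, 1 < x →
          (Measure.pi (fun _ : Fin m => Measure.pi (fun _ : Fin n => gaussianReal 0 (σ ^ 2))))
            {G : Fin m → Fin n → ℝ | ∃ j k : Fin m, j ≠ k ∧
              Real.sqrt ((Matrix.isHermitian_mul_conjTranspose_self (Abar + Matrix.of G)).eigenvalues k)
                ≤ Real.sqrt ((Matrix.isHermitian_mul_conjTranspose_self (Abar + Matrix.of G)).eigenvalues j) ∧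
              Real.sqrt ((Matrix.isHermitian_mul_conjTranspose_self (Abar + Matrix.of G)).eigenvalues j)
                - Real.sqrt ((Matrix.isHermitian_mul_conjTranspose_self (Abar + Matrix.of G)).eigenvalues k)
                ≤ Real.sqrt ((Matrix.isHermitian_mul_conjTranspose_self (Abar + Matrix.of G)).eigenvalues k) / x}
            ≤ ENNReal.ofReal (c * (n : ℝ) ^ k₁ * x ^ (-k₂) * (σ : ℝ) ^ (-k₃)) := by
  obtain ⟨c, k₁, h1, h2, h3⟩ := (result 2 2 (by norm_num)).2 ⟨le_rfl, le_rfl⟩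
  exact ⟨c, k₁, 2, 2, h1, h2, by norm_num, by norm_num, h3⟩

end Pool.Agent.Results.MP_429aeb_pr.ExactExponents
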