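import Mathlib
import Pool.Agent.P.MP_429aeb_pr.GpMain

open MeasureTheory ProbabilityTheory
open scoped NNReal

namespace Pool.Agent.Results.MP_429aeb_pr.SharpGap

theorem result : ∀ m n : ℕ, m ≤ n → ∀ Abar : Matrix (Fin m) (Fin n) ℝ,
    ∀ σ : ℝ≥0, 0 < σ → ∀ x : ℝ, 0 < x →
      (Measure.pi (fun _ : Fin m => Measure.pi (fun _ : Fin n => gaussianReal 0 (σ ^ 2))))
        {G : Fin m → Fin n → ℝ | ∃ j k : Fin m, j ≠ k ∧
          Real.sqrt ((Matrix.isHermitian_mul_conjTranspose_self (Abar + Matrix.of G)).eigenvalues k)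
            ≤ Real.sqrt
              ((Matrix.isHermitian_mul_conjTranspose_self (Abar + Matrix.of G)).eigenvalues j) ∧
          Real.sqrt ((Matrix.isHermitian_mul_conjTranspose_self (Abar + Matrix.of G)).eigenvalues j)
            - Real.sqrt
              ((Matrix.isHermitian_mul_conjTranspose_self (Abar + Matrix.of G)).eigenvalues k)
            ≤ Real.sqrt
              ((Matrix.isHermitian_mul_conjTranspose_self (Abar + Matrix.of G)).eigenvalues k) / x}
        ≤ ENNReal.ofReal
          (((m : ℝ) - 1) * ((∑ i, ∑ j, Abar i j ^ 2) / (σ : ℝ) ^ 2 + m * n) / x ^ 2) := by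
  intro m n hmn Abar σ hσ x hx
  have h := Gp429.rel_gap_le (v := σ ^ 2) (pow_pos hσ 2).ne' (Fin.castLEEmb hmn)
    (fun i j => Abar i j) hx
  simp only [Fintype.card_fin, Gp429.ip, ← pow_two, NNReal.coe_pow] at h
  rw [← ofReal_measureReal (measure_ne_top _ _)]
  exact ENNReal.ofReal_le_ofReal h

end Pool.Agent.Results.MP_429aeb_pr.SharpGap
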